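import Pool.Agent.H185F.All
import Pool.Agent.H239R2.Cover.CircFlow

set_option autoImplicit false
set_option linter.unusedSectionVars false

/-! Integral circulations between integral bounds, from real ones. -/

namespace Pool.Agent.H179R3

open Pool.Agent.H239R2.Cover Pool.Agent.H185F

variable {V E : Type} [Fintype V] [DecidableEq V] [Fintype E] [DecidableEq E]

theorem bdry_flip {R : Type} [CommRing R] (F : Finset E) (src dst : E → V) (g : E → R) (v : V) :
    bdry R (rsrc F src dst) (rsrc F dst src) (fun e => if e ∈ F then - g e else g e) v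
      = bdry R src dst g v := by
  rw [bdry_apply, bdry_apply]
  refine Finset.sum_congr rfl fun e _ => ?_
  unfold rsrc
  by_cases h : e ∈ F
  · simp only [h, if_true]; ring
  · simp only [h, if_false]

/-- A real circulation whose values have absolute value between two integers can be replaced by an
integral one. -/
theorem int_flow (src dst : E → V) (lo hi : ℤ) (hlo : 0 ≤ lo) (g : E → ℝ)
    (hg : ∀ e, (lo : ℝ) ≤ |g e| ∧ |g e| ≤ hi) (hb : ∀ v, bdry ℝ src dst g v = 0) :
    ∃ f : E → ℤ, (∀ e, lo ≤ |f e| ∧ |f e| ≤ hi) ∧ ∀ v, bdry ℤ src dst f v = 0 := by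
  classical
  rcases isEmpty_or_nonempty V with hV | ⟨⟨r⟩⟩
  · exact ⟨fun _ => lo, fun e => (hV.false (src e)).elim, fun v => (hV.false v).elim⟩
  let F : Finset E := Finset.univ.filter (fun e => g e < 0)
  let src' := rsrc F src dst
  let dst' := rsrc F dst src
  have habs : ∀ e, |g e| = if e ∈ F then - g e else g e := by
    intro e
    by_cases h : g e < 0
    · have : e ∈ F := by simp [F, h]
      rw [if_pos this, abs_of_neg h]
    · have : e ∉ F := by simp [F, h]
      rw [if_neg this, abs_of_nonneg (not_lt.mp h)]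
  have hb' : ∀ v, bdry ℝ src' dst' (fun e => |g e|) v = 0 := by
    intro v
    rw [← hb v, ← bdry_flip F src dst g v]
    exact congrArg (fun w : E → ℝ => bdry ℝ src' dst' w v) (funext habs)
  let a : Rt r → ℤ := - ∑ e, ⌊|g e|⌋ • inc src' dst' r e
  have ha : ∑ e, Int.fract |g e| • rv (inc src' dst' r e) = rv a := by
    ext v
    have h1 := hb' v.1
    rw [bdry_apply] at h1
    rw [Finset.sum_apply]
    simp only [Pi.smul_apply, smul_eq_mul]
    have h2 : rv a v = - ∑ e, (⌊|g e|⌋ : ℝ) * rv (inc src' dst' r e) v := by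
      simp only [rv, a, Pi.neg_apply, Finset.sum_apply, Pi.smul_apply, smul_eq_mul]
      push_cast
      rfl
    rw [h2, eq_neg_iff_add_eq_zero, ← Finset.sum_add_distrib, ← h1]
    refine Finset.sum_congr rfl fun e _ => ?_
    rw [incR_restrict]
    simp only [incR]
    rw [← add_mul, add_comm, Int.floor_add_fract]
  obtain ⟨S, hS, hS1, -⟩ := rounding' (inc src' dst' r) (unimod_inc src' dst' r)
    (fun e => Int.fract |g e|) (fun e => Int.fract_nonneg _) (fun e => (Int.fract_lt_one _).le) a ha
  let f' : E → ℤ := fun e => ⌊|g e|⌋ + if e ∈ S then 1 else 0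
  have hf'0 : ∀ e, lo ≤ f' e ∧ f' e ≤ hi := by
    intro e
    have h1 : lo ≤ ⌊|g e|⌋ := Int.le_floor.mpr (hg e).1
    have h2 : ⌊|g e|⌋ ≤ hi := by
      have := Int.floor_le |g e|
      have h3 := (hg e).2
      exact_mod_cast this.trans h3
    simp only [f']
    by_cases he : e ∈ S
    · rw [if_pos he]
      refine ⟨by omega, ?_⟩
      have h3 := hS1 e he
      have h4 : (⌊|g e|⌋ : ℝ) < |g e| := by
        have h5 := Int.floor_add_fract |g e|
        have h6 : 0 < Int.fract |g e| := lt_of_le_of_ne (Int.fract_nonneg _) (Ne.symm h3)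
        linarith
      have h7 : (⌊|g e|⌋ : ℝ) < hi := lt_of_lt_of_le h4 (hg e).2
      have h8 : ⌊|g e|⌋ < hi := by exact_mod_cast h7
      omega
    · rw [if_neg he]
      exact ⟨by omega, by omega⟩
  have hne : ∀ v, v ≠ r → bdry ℤ src' dst' f' v = 0 := by
    intro v hv
    rw [bdry_apply]
    have h1 := congrFun hS ⟨v, hv⟩
    simp only [Finset.sum_apply, a, Pi.neg_apply, Pi.smul_apply, smul_eq_mul, inc] at h1
    simp only [f', add_mul, Finset.sum_add_distrib]
    have h2 : ∑ e, (if e ∈ S then (1:ℤ) else 0) *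
        ((if src' e = v then 1 else 0) - (if dst' e = v then 1 else 0))
        = ∑ e ∈ S, ((if src' e = v then (1:ℤ) else 0) - (if dst' e = v then 1 else 0)) := by
      rw [← Finset.sum_filter_add_sum_filter_not Finset.univ (fun e => e ∈ S)]
      rw [Finset.sum_congr rfl (g := fun e =>
        ((if src' e = v then (1:ℤ) else 0) - (if dst' e = v then 1 else 0)))
        (fun e he => by rw [if_pos (Finset.mem_filter.mp he).2, one_mul])]
      rw [Finset.sum_eq_zero (s := Finset.univ.filter (fun e => ¬ e ∈ S))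
        (fun e he => by rw [if_neg (Finset.mem_filter.mp he).2, zero_mul]), add_zero]
      congr 1
      ext e; simp
    rw [h2, h1]
    ring
  have hall : ∀ v, bdry ℤ src' dst' f' v = 0 := by
    intro v
    by_cases hv : v = r
    · subst hv
      have h1 : ∑ u, bdry ℤ src' dst' f' u = 0 := by
        simp only [bdry_apply]
        rw [Finset.sum_comm]
        apply Finset.sum_eq_zero
        intro e _
        rw [← Finset.mul_sum, Finset.sum_sub_distrib]
        simp
      rw [← Finset.add_sum_erase Finset.univ _ (Finset.mem_univ v)] at h1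
      rw [Finset.sum_eq_zero (fun u hu => hne u (Finset.ne_of_mem_erase hu)), add_zero] at h1
      exact h1
    · exact hne v hv
  refine ⟨fun e => if e ∈ F then - f' e else f' e, fun e => ?_, fun v => ?_⟩
  · have h0 := hf'0 e
    have h1 : |(if e ∈ F then - f' e else f' e)| = f' e := by
      by_cases he : e ∈ F
      · rw [if_pos he, abs_neg, abs_of_nonneg (by omega)]
      · rw [if_neg he, abs_of_nonneg (by omega)]
    rw [h1]
    exact h0
  · rw [← hall v, ← bdry_flip F src dst _ v]
    refine congrArg (fun w : E → ℤ => bdry ℤ src' dst' w v) (funext fun e => ?_)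
    by_cases he : e ∈ F
    · simp [he]
    · simp [he]

/-- If every odd edge cut has at least `2 t + 1` edges then there is a nowhere-zero `r`-flow for
some `r < 2 + 4 / (2 t - 1)`. -/
theorem exists_flow_lt (t : ℕ) (ht : 1 ≤ t) (s d : E → V)
    (h : ∀ X : Finset V,
        Odd (Finset.univ.filter
          (fun e => (s e ∈ X ∧ d e ∉ X) ∨ (s e ∉ X ∧ d e ∈ X))).card →
        2 * t + 1 ≤ (Finset.univ.filter
          (fun e => (s e ∈ X ∧ d e ∉ X) ∨ (s e ∉ X ∧ d e ∈ X))).card) :
    ∃ r : ℝ, 2 ≤ r ∧ r < 2 + 4 / (2 * (t : ℝ) - 1) ∧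
      ∃ f : E → ℝ, (∀ e, 1 ≤ |f e| ∧ |f e| ≤ r - 1) ∧
        ∀ v : V, ∑ e ∈ Finset.univ.filter (fun e => s e = v), f e
           = ∑ e ∈ Finset.univ.filter (fun e => d e = v), f e := by
  have h1 := cfn_of_odd_cuts t ht s d h
  unfold Pool.Agent.H127R2.circularFlowNumber at h1
  rw [iInf_lt_iff] at h1
  obtain ⟨r, hr⟩ := h1
  rw [iInf_lt_iff] at hr
  obtain ⟨⟨h2, f, hf⟩, hlt⟩ := hr
  exact ⟨r, h2, EReal.coe_lt_coe_iff.mp hlt, f, hf.1, hf.2⟩

theorem bdry_of_flow {R : Type} [CommRing R] (s d : E → V) (f : E → R) (v : V) :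
    bdry R s d f v = ∑ e ∈ Finset.univ.filter (fun e => s e = v), f e
      - ∑ e ∈ Finset.univ.filter (fun e => d e = v), f e := by
  rw [bdry_apply, Finset.sum_filter, Finset.sum_filter, ← Finset.sum_sub_distrib]
  refine Finset.sum_congr rfl fun e _ => ?_
  by_cases h2 : s e = v <;> by_cases h3 : d e = v <;> simp [h2, h3]

/-- Graphs without odd edge cuts of size less than `2 k + 3` have integer flows with absolute
values in `{k, k+1, k+2}`. -/
theorem int_flow_of_odd_cuts (k : ℕ) (hk : 0 < k) (s d : E → V)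
    (h : ∀ X : Finset V,
        Odd (Finset.univ.filter
          (fun e => (s e ∈ X ∧ d e ∉ X) ∨ (s e ∉ X ∧ d e ∈ X))).card →
        2 * k + 3 ≤ (Finset.univ.filter
          (fun e => (s e ∈ X ∧ d e ∉ X) ∨ (s e ∉ X ∧ d e ∈ X))).card) :
    ∃ f : E → ℤ, (∀ e, (k : ℤ) ≤ |f e| ∧ |f e| ≤ (k : ℤ) + 2) ∧
        ∀ v : V, ∑ e ∈ Finset.univ.filter (fun e => s e = v), f e
           = ∑ e ∈ Finset.univ.filter (fun e => d e = v), f e := by
  obtain ⟨r, hr2, hr, f, hf, hb⟩ := exists_flow_lt (k + 1) (by omega) s d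
    (fun X hX => by have := h X hX; omega)
  have hk' : (0 : ℝ) < k := by exact_mod_cast hk
  have hr' : r - 1 ≤ ((k : ℝ) + 2) / k := by
    have h1 : 4 / (2 * ((k + 1 : ℕ) : ℝ) - 1) ≤ 2 / k := by
      push_cast
      rw [div_le_div_iff₀ (by linarith) hk']
      linarith
    have h2 : ((k : ℝ) + 2) / k = 1 + 2 / k := by field_simp
    rw [h2]
    linarith
  obtain ⟨f', h1, h2⟩ := int_flow s d (k : ℤ) ((k : ℤ) + 2) (by positivity) (fun e => k * f e)
    (fun e => by
      rw [abs_mul, abs_of_pos hk']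
      push_cast
      constructor
      · nlinarith [(hf e).1]
      · have h3 := (hf e).2.trans hr'
        rw [le_div_iff₀ hk'] at h3
        linarith)
    (fun v => by
      rw [bdry_of_flow, ← Finset.mul_sum, ← Finset.mul_sum, hb v, sub_self])
  refine ⟨f', h1, fun v => ?_⟩
  have := h2 v
  rw [bdry_of_flow] at this
  linarith

end Pool.Agent.H179R3
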